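import Mathlib

/-!
Exchange lemma for vertex sets covered by disjoint cycles (MP_33911d_co, plane 2-factor), by a walking induction.
-/

set_option autoImplicit false

namespace H77X

variable {V : Type*}

/-- Degree of `v` in a finite set of edges. -/
def dg [DecidableEq V] (F : Finset (Sym2 V)) (v : V) : ℕ := (F.filter (fun e => v ∈ e)).card

section dg
variable [DecidableEq V]

lemma dg_insert {F : Finset (Sym2 V)} {e : Sym2 V} (h : e ∉ F) (v : V) :
    dg (insert e F) v = dg F v + if v ∈ e then 1 else 0 := by
  unfold dg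
  rw [Finset.filter_insert]
  split_ifs with hv
  · rw [Finset.card_insert_of_notMem (by simp [h])]
  · simp

lemma dg_erase {F : Finset (Sym2 V)} {e : Sym2 V} (h : e ∈ F) (v : V) :
    dg (F.erase e) v + (if v ∈ e then 1 else 0) = dg F v := by
  have h1 := dg_insert (F := F.erase e) (e := e) (by simp) v
  rw [Finset.insert_erase h] at h1
  exact h1.symm

lemma dg_pos {F : Finset (Sym2 V)} {e : Sym2 V} {v : V} (h : e ∈ F) (hv : v ∈ e) : 0 < dg F v :=
  Finset.card_pos.2 ⟨e, by simp [h, hv]⟩

lemma exists_of_lt {F F' : Finset (Sym2 V)} {v : V} (h : dg F' v < dg F v) :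
    ∃ e ∈ F, e ∉ F' ∧ v ∈ e := by
  by_contra hcon
  push Not at hcon
  have : F.filter (fun e => v ∈ e) ⊆ F'.filter (fun e => v ∈ e) := by
    intro e he
    simp only [Finset.mem_filter] at he ⊢
    refine ⟨?_, he.2⟩
    by_contra h2
    exact hcon e he.1 h2 he.2
  exact absurd (Finset.card_le_card this) (by unfold dg at h; omega)

/-- State of the walk. -/
structure St (E F2 : Finset (Sym2 V)) (A : Finset V) (b d : V) (F : Finset (Sym2 V)) (a : V) :
    Prop where
  sub : F ⊆ E
  ev : ∀ v, v ≠ a → v ≠ d → dg F v = 0 ∨ dg F v = 2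
  onA : ∀ v ∈ A, v ≠ a → dg F v = 2
  atb : a ≠ b → dg F b = 2
  atd : a ≠ d → dg F d = 1
  edd : ∀ e ∈ F, d ∈ e → e ∈ F2
  ata : a ≠ b → a ≠ d → dg F a = 1 ∨ dg F a = 3
  ab : a = b → dg F b = 1
  ad : a = d → dg F d = 2

theorem walk_st (E F2 : Finset (Sym2 V)) (A : Finset V) (b d : V) (hbd : b ≠ d) (hbA : b ∉ A)
    (hdA : d ∉ A) (hF2E : F2 ⊆ E)
    (hE : ∀ e ∈ E, ¬ e.IsDiag) (h2 : ∀ v, dg F2 v = 0 ∨ dg F2 v = 2) (h2A : ∀ v ∈ A, dg F2 v = 2)
    (h2b : dg F2 b = 0) : ∀ (n : ℕ) (F : Finset (Sym2 V)) (a : V),
    (symmDiff F F2).card = n → St E F2 A b d F a →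
      ∃ F', F' ⊆ E ∧ (∀ v, v ≠ b → v ≠ d → dg F' v = 0 ∨ dg F' v = 2) ∧ (∀ v ∈ A, dg F' v = 2) ∧
        ((dg F' b = 2 ∧ dg F' d = 2) ∨ (dg F' b = 1 ∧ dg F' d = 1)) := by
  intro n
  induction n with
  | zero =>
    intro F a hn hS
    -- F = F2, so a = d
    have hFF : F = F2 := by
      have := Finset.card_eq_zero.1 hn
      exact symmDiff_eq_bot.1 this
    subst hFF
    by_cases had : a = d
    · subst had
      have hb2 := hS.atb (Ne.symm hbd)
      omega
    · by_cases hab : a = b
      · have := hS.ab hab
        omega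
      · have := hS.atb hab
        omega
  | succ n ih =>
    intro F a hn hS
    by_cases had : a = d
    · subst had
      refine ⟨F, hS.sub, fun v _ hv => hS.ev v hv hv, fun v hv => hS.onA v hv ?_, Or.inl
        ⟨hS.atb (Ne.symm hbd), hS.ad rfl⟩⟩
      rintro rfl; exact hdA hv
    by_cases hab : a = b
    · subst hab
      refine ⟨F, hS.sub, fun v hv hv' => hS.ev v hv hv', fun v hv => hS.onA v hv ?_, Or.inr
        ⟨hS.ab rfl, hS.atd had⟩⟩
      rintro rfl; exact hbA hv
    -- removing an edge
    have hrem : ∀ e ∈ F, e ∉ F2 → a ∈ e → (dg F a = 3 ∨ (dg F a = 1 ∧ a ∉ A)) →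
        ∃ F', F' ⊆ E ∧ (∀ v, v ≠ b → v ≠ d → dg F' v = 0 ∨ dg F' v = 2) ∧
          (∀ v ∈ A, dg F' v = 2) ∧
          ((dg F' b = 2 ∧ dg F' d = 2) ∨ (dg F' b = 1 ∧ dg F' d = 1)) := by
      intro e heF heF2 hae hcase
      obtain ⟨w, rfl⟩ := Sym2.mem_iff_exists.1 hae
      have haw : a ≠ w := by
        intro h; exact hE _ (hS.sub heF) (by simp [h])
      have hwd : w ≠ d := by
        rintro rfl
        exact heF2 (hS.edd _ heF (by simp))
      have hwe : ∀ v, v ≠ a → v ≠ w → dg (F.erase s(a, w)) v = dg F v := by
        intro v hva hvw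
        have := dg_erase heF v
        rw [if_neg (by simp [hva, hvw])] at this
        simpa using this
      have haa : dg (F.erase s(a, w)) a + 1 = dg F a := by
        have := dg_erase heF a
        rwa [if_pos (by simp)] at this
      have hww : dg (F.erase s(a, w)) w + 1 = dg F w := by
        have := dg_erase heF w
        rwa [if_pos (by simp)] at this
      refine ih (F.erase s(a, w)) w ?_ ?_
      · have : symmDiff (F.erase s(a, w)) F2 = (symmDiff F F2).erase s(a, w) := by
          ext x
          simp only [Finset.mem_symmDiff, Finset.mem_erase]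
          by_cases hx : x = s(a, w)
          · subst hx; simp [heF2]
          · simp [hx]
        rw [this, Finset.card_erase_of_mem (by simp [Finset.mem_symmDiff, heF, heF2]), hn]
        rfl
      · refine ⟨(Finset.erase_subset _ _).trans hS.sub, ?_, ?_, ?_, ?_, ?_, ?_, ?_, ?_⟩
        · intro v hvw hvd
          by_cases hva : v = a
          · subst hva
            omega
          · rw [hwe v hva hvw]; exact hS.ev v hva hvd
        · intro v hvA hvw
          by_cases hva : v = a
          · subst hva
            rcases hcase with h | h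
            · omega
            · exact absurd hvA h.2
          · rw [hwe v hva hvw]; exact hS.onA v hvA hva
        · intro hwb
          rw [hwe b (Ne.symm hab) (Ne.symm hwb)]; exact hS.atb hab
        · intro _
          rw [hwe d (Ne.symm had) (Ne.symm hwd)]; exact hS.atd had
        · intro e he hde
          exact hS.edd e (Finset.mem_of_mem_erase he) hde
        · intro hwb _
          rcases hS.ev w (Ne.symm haw) hwd with h | h
          · have := dg_pos heF (v := w) (by simp)
            omega
          · left; omega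
        · intro hwb
          subst hwb
          have := hS.atb hab
          omega
        · intro hwd'; exact absurd hwd' hwd
    rcases hS.ata hab had with h1 | h3
    · rcases h2 a with h20 | h22
      · -- remove the edge
        obtain ⟨e, heF, heF2, hae⟩ := exists_of_lt (F := F) (F' := F2) (v := a) (by omega)
        refine hrem e heF heF2 hae (Or.inr ⟨h1, fun h => ?_⟩)
        have := h2A a h
        omega
      · -- add an edge
        obtain ⟨e, heF2, heF, hae⟩ := exists_of_lt (F := F2) (F' := F) (v := a) (by omega)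
        obtain ⟨w, rfl⟩ := Sym2.mem_iff_exists.1 hae
        have haw : a ≠ w := by
          intro h; exact hE _ (hF2E heF2) (by simp [h])
        have hwb : w ≠ b := by
          rintro rfl
          have := dg_pos heF2 (v := w) (by simp)
          omega
        have hwe : ∀ v, v ≠ a → v ≠ w → dg (insert s(a, w) F) v = dg F v := by
          intro v hva hvw
          rw [dg_insert heF v, if_neg (by simp [hva, hvw])]
          rfl
        have haa : dg (insert s(a, w) F) a = dg F a + 1 := by
          rw [dg_insert heF a, if_pos (by simp)]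
        have hww : dg (insert s(a, w) F) w = dg F w + 1 := by
          rw [dg_insert heF w, if_pos (by simp)]
        refine ih (insert s(a, w) F) w ?_ ?_
        · have : symmDiff (insert s(a, w) F) F2 = (symmDiff F F2).erase s(a, w) := by
            ext x
            simp only [Finset.mem_symmDiff, Finset.mem_erase, Finset.mem_insert]
            by_cases hx : x = s(a, w)
            · subst hx; simp [heF2]
            · simp [hx]
          rw [this, Finset.card_erase_of_mem (by simp [Finset.mem_symmDiff, heF, heF2]), hn]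
          rfl
        · refine ⟨?_, ?_, ?_, ?_, ?_, ?_, ?_, ?_, ?_⟩
          · intro x hx
            rcases Finset.mem_insert.1 hx with rfl | hx
            · exact hF2E heF2
            · exact hS.sub hx
          · intro v hvw hvd
            by_cases hva : v = a
            · subst hva; omega
            · rw [hwe v hva hvw]; exact hS.ev v hva hvd
          · intro v hvA hvw
            by_cases hva : v = a
            · subst hva; omega
            · rw [hwe v hva hvw]; exact hS.onA v hvA hva
          · intro _
            rw [hwe b (Ne.symm hab) (Ne.symm hwb)]; exact hS.atb hab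
          · intro hwd
            rw [hwe d (Ne.symm had) (Ne.symm hwd)]; exact hS.atd had
          · intro e he hde
            rcases Finset.mem_insert.1 he with rfl | he
            · exact heF2
            · exact hS.edd e he hde
          · intro _ hwd
            rcases hS.ev w (Ne.symm haw) hwd with h | h
            · left; omega
            · right; omega
          · intro h; exact absurd h hwb
          · intro hwd
            subst hwd
            have := hS.atd had
            omega
    · obtain ⟨e, heF, heF2, hae⟩ := exists_of_lt (F := F) (F' := F2) (v := a)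
        (by rcases h2 a with h | h <;> omega)
      exact hrem e heF heF2 hae (Or.inl h3)

/-- The exchange step: `F1` covers `A + b`, `F2` covers `A + d`. -/
theorem exch (F1 F2 : Finset (Sym2 V)) (A : Finset V) (b d : V) (hbd : b ≠ d) (hbA : b ∉ A)
    (hdA : d ∉ A) (hE : ∀ e ∈ F1 ∪ F2, ¬ e.IsDiag)
    (h1 : ∀ v, dg F1 v = 0 ∨ dg F1 v = 2) (h1A : ∀ v ∈ A, dg F1 v = 2) (h1b : dg F1 b = 2)
    (h1d : dg F1 d = 0)
    (h2 : ∀ v, dg F2 v = 0 ∨ dg F2 v = 2) (h2A : ∀ v ∈ A, dg F2 v = 2) (h2b : dg F2 b = 0)
    (h2d : dg F2 d = 2) :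
    ∃ F', F' ⊆ F1 ∪ F2 ∧ (∀ v, v ≠ b → v ≠ d → dg F' v = 0 ∨ dg F' v = 2) ∧
      (∀ v ∈ A, dg F' v = 2) ∧
      ((dg F' b = 2 ∧ dg F' d = 2) ∨ (dg F' b = 1 ∧ dg F' d = 1)) := by
  obtain ⟨e, heF2, heF1, hde⟩ := exists_of_lt (F := F2) (F' := F1) (v := d) (by omega)
  obtain ⟨w, rfl⟩ := Sym2.mem_iff_exists.1 hde
  have hdw : d ≠ w := by
    intro h; exact hE _ (Finset.mem_union_right _ heF2) (by simp [h])
  have hwb : w ≠ b := by
    rintro rfl
    have := dg_pos heF2 (v := w) (by simp)
    omega
  have hwe : ∀ v, v ≠ d → v ≠ w → dg (insert s(d, w) F1) v = dg F1 v := by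
    intro v hva hvw
    rw [dg_insert heF1 v, if_neg (by simp [hva, hvw])]
    rfl
  have hdd : dg (insert s(d, w) F1) d = dg F1 d + 1 := by
    rw [dg_insert heF1 d, if_pos (by simp)]
  have hww : dg (insert s(d, w) F1) w = dg F1 w + 1 := by
    rw [dg_insert heF1 w, if_pos (by simp)]
  refine walk_st (F1 ∪ F2) F2 A b d hbd hbA hdA Finset.subset_union_right hE h2 h2A h2b _
    (insert s(d, w) F1) w rfl ?_
  refine ⟨?_, ?_, ?_, ?_, ?_, ?_, ?_, ?_, ?_⟩
  · intro x hx
    rcases Finset.mem_insert.1 hx with rfl | hx
    · exact Finset.mem_union_right _ heF2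
    · exact Finset.mem_union_left _ hx
  · intro v hvw hvd
    rw [hwe v hvd hvw]; exact h1 v
  · intro v hvA hvw
    have : v ≠ d := by rintro rfl; exact hdA hvA
    rw [hwe v this hvw]; exact h1A v hvA
  · intro _
    rw [hwe b hbd (Ne.symm hwb)]; exact h1b
  · intro _
    omega
  · intro e he hde
    rcases Finset.mem_insert.1 he with rfl | he
    · exact heF2
    · have := dg_pos he hde
      omega
  · intro _ _
    rcases h1 w with h | h
    · left; omega
    · right; omega
  · intro h; exact absurd h hwb
  · intro h; exact absurd h.symm hdw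

/-- Adding a path. -/
theorem addpath {G : SimpleGraph V} : ∀ {b d : V} (p : G.Walk b d), p.IsPath → b ≠ d →
    ∀ (F : Finset (Sym2 V)), (∀ e ∈ F, e ∈ G.edgeSet) → s(b, d) ∉ F →
    (∀ r ∈ p.support, r ≠ b → r ≠ d → dg F r = 0) → dg F b = 1 → dg F d = 1 →
    (∀ v, v ≠ b → v ≠ d → dg F v = 0 ∨ dg F v = 2) →
    ∃ F' : Finset (Sym2 V), (∀ e ∈ F', e ∈ G.edgeSet) ∧ (∀ v, dg F' v = 0 ∨ dg F' v = 2) ∧
      dg F' b = 2 ∧ dg F' d = 2 ∧ ∀ v, dg F v = 2 → dg F' v = 2 := by
  intro b d p
  induction p with
  | nil => intro _ h; exact absurd rfl h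
  | @cons b c d hbc p ih =>
    intro hp hbd F hFG hsF hin hb hd hev
    rw [SimpleGraph.Walk.cons_isPath_iff] at hp
    by_cases hcd : c = d
    · subst hcd
      have hval : ∀ v, v ≠ b → v ≠ c → dg (insert s(b, c) F) v = dg F v := by
        intro v hvb hvc
        rw [dg_insert hsF v, if_neg (by simp [hvb, hvc])]
        rfl
      have hb2 : dg (insert s(b, c) F) b = 2 := by
        rw [dg_insert hsF b, if_pos (by simp)]; omega
      have hc2 : dg (insert s(b, c) F) c = 2 := by
        rw [dg_insert hsF c, if_pos (by simp)]; omega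
      refine ⟨insert s(b, c) F, ?_, ?_, hb2, hc2, ?_⟩
      · intro e he
        rcases Finset.mem_insert.1 he with rfl | he
        · exact hbc
        · exact hFG e he
      · intro v
        by_cases h1 : v = b
        · subst h1; exact Or.inr hb2
        by_cases h2 : v = c
        · subst h2; exact Or.inr hc2
        rw [hval v h1 h2]; exact hev v h1 h2
      · intro v hv
        by_cases h1 : v = b
        · subst h1; exact hb2
        by_cases h2 : v = c
        · subst h2; exact hc2
        rw [hval v h1 h2]; exact hv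
    · have hcb : c ≠ b := hbc.ne'
      have hc0 : dg F c = 0 := hin c (by simp) hcb hcd
      have hsbc : s(b, c) ∉ F := by
        intro h
        have := dg_pos h (v := c) (by simp)
        omega
      have hval : ∀ v, v ≠ b → v ≠ c → dg (insert s(b, c) F) v = dg F v := by
        intro v hvb hvc
        rw [dg_insert hsbc v, if_neg (by simp [hvb, hvc])]
        rfl
      have hb2 : dg (insert s(b, c) F) b = 2 := by
        rw [dg_insert hsbc b, if_pos (by simp)]; omega
      have hc1 : dg (insert s(b, c) F) c = 1 := by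
        rw [dg_insert hsbc c, if_pos (by simp)]; omega
      obtain ⟨F', hF'G, hF'ev, hF'c, hF'd, hF'2⟩ := ih hp.1 hcd (insert s(b, c) F) (by
          intro e he
          rcases Finset.mem_insert.1 he with rfl | he
          · exact hbc
          · exact hFG e he) (by
          intro h
          rcases Finset.mem_insert.1 h with h | h
          · rw [Sym2.eq_iff] at h
            rcases h with h | h
            · exact hcb h.1
            · exact hbd h.2.symm
          · have := dg_pos h (v := c) (by simp)
            omega) (by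
          intro r hr hrc hrd
          have hrb : r ≠ b := by rintro rfl; exact hp.2 hr
          rw [hval r hrb hrc]
          exact hin r (by simp [hr]) hrb hrd) hc1 (by
          rw [hval d (Ne.symm hbd) (Ne.symm hcd)]; exact hd) (by
          intro v hvc hvd
          by_cases hvb : v = b
          · subst hvb; exact Or.inr hb2
          · rw [hval v hvb hvc]; exact hev v hvb hvd)
      refine ⟨F', hF'G, hF'ev, hF'2 b hb2, hF'd, ?_⟩
      intro v hv
      apply hF'2
      by_cases hvb : v = b
      · subst hvb; exact hb2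
      · by_cases hvc : v = c
        · subst hvc; omega
        · rw [hval v hvb hvc]; exact hv

end dg

/-- `A` is covered by pairwise disjoint cycles of `G`. -/
def Cov (G : SimpleGraph V) (A : Set V) : Prop :=
  ∃ F : SimpleGraph V, F ≤ G ∧ (∀ v, (F.neighborSet v).ncard = 0 ∨ (F.neighborSet v).ncard = 2) ∧
    ∀ v ∈ A, (F.neighborSet v).ncard = 2

theorem Cov.mono {G : SimpleGraph V} {A B : Set V} (h : A ⊆ B) (hB : Cov G B) : Cov G A := by
  obtain ⟨F, h1, h2, h3⟩ := hB
  exact ⟨F, h1, h2, fun v hv => h3 v (h hv)⟩

variable [Fintype V]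

theorem dg_edgeFinset [DecidableEq V] (F : SimpleGraph V) [DecidableRel F.Adj] (v : V) :
    dg F.edgeFinset v = (F.neighborSet v).ncard := by
  unfold dg
  rw [← SimpleGraph.incidenceFinset_eq_filter, SimpleGraph.card_incidenceFinset_eq_degree,
    ← SimpleGraph.card_neighborSet_eq_degree, Set.ncard_eq_toFinset_card', Set.toFinset_card]

theorem cov_iff [DecidableEq V] (G : SimpleGraph V) (A : Set V) :
    Cov G A ↔ ∃ F : Finset (Sym2 V), (∀ e ∈ F, e ∈ G.edgeSet) ∧ (∀ v, dg F v = 0 ∨ dg F v = 2) ∧
      ∀ v ∈ A, dg F v = 2 := by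
  classical
  constructor
  · rintro ⟨F, hFG, hev, hA⟩
    refine ⟨F.edgeFinset, ?_, ?_, ?_⟩
    · intro e he
      exact SimpleGraph.edgeSet_mono hFG (by simpa using he)
    · intro v; rw [dg_edgeFinset]; exact hev v
    · intro v hv; rw [dg_edgeFinset]; exact hA v hv
  · rintro ⟨F, hFG, hev, hA⟩
    have hE : ∀ (_ : Fintype (SimpleGraph.fromEdgeSet (F : Set (Sym2 V))).edgeSet),
        (SimpleGraph.fromEdgeSet (F : Set (Sym2 V))).edgeFinset = F := by
      intro _
      ext e
      simp only [SimpleGraph.mem_edgeFinset, SimpleGraph.edgeSet_fromEdgeSet, Set.mem_sdiff,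
        Finset.mem_coe]
      constructor
      · exact fun h => h.1
      · exact fun h => ⟨h, SimpleGraph.not_isDiag_of_mem_edgeSet _ (hFG e h)⟩
    have hdg : ∀ v, ((SimpleGraph.fromEdgeSet (F : Set (Sym2 V))).neighborSet v).ncard = dg F v := by
      intro v
      rw [← dg_edgeFinset, hE]
    refine ⟨SimpleGraph.fromEdgeSet (F : Set (Sym2 V)), ?_, ?_, ?_⟩
    · intro x y hxy
      rw [SimpleGraph.fromEdgeSet_adj] at hxy
      exact hFG _ hxy.1
    · intro v; rw [hdg]; exact hev v
    · intro v hv; rw [hdg]; exact hA v hv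

/-- Exchange lemma. -/
theorem cov_exchange (G : SimpleGraph V) (A : Set V) {b d : V} (p : G.Walk b d) (hp : p.IsPath)
    (hin : ∀ r ∈ p.support, r ≠ b → r ≠ d → r ∉ A ∧ ¬ Cov G (insert r A))
    (hb : Cov G (insert b A)) (hd : Cov G (insert d A)) : Cov G (insert b (insert d A)) := by
  classical
  by_cases hbd : b = d
  · subst hbd
    simpa using hb
  obtain ⟨F1, h1G, h1ev, h1A⟩ := (cov_iff G _).1 hb
  obtain ⟨F2, h2G, h2ev, h2A⟩ := (cov_iff G _).1 hd
  -- trivial cases
  rcases h1ev d with h1d | h1d
  swap
  · refine (cov_iff G _).2 ⟨F1, h1G, h1ev, ?_⟩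
    rintro v (rfl | rfl | hv)
    · exact h1A _ (Set.mem_insert _ _)
    · exact h1d
    · exact h1A v (Set.mem_insert_of_mem _ hv)
  rcases h2ev b with h2b | h2b
  swap
  · refine (cov_iff G _).2 ⟨F2, h2G, h2ev, ?_⟩
    rintro v (rfl | rfl | hv)
    · exact h2b
    · exact h2A _ (Set.mem_insert _ _)
    · exact h2A v (Set.mem_insert_of_mem _ hv)
  have hbA : b ∉ A := by
    intro h
    have := h2A b (Set.mem_insert_of_mem _ h)
    omega
  have hdA : d ∉ A := by
    intro h
    have := h1A d (Set.mem_insert_of_mem _ h)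
    omega
  have hnotcov : ∀ (F : Finset (Sym2 V)), (∀ e ∈ F, e ∈ G.edgeSet) →
      (∀ v, dg F v = 0 ∨ dg F v = 2) → (∀ v ∈ A, dg F v = 2) →
      ∀ r ∈ p.support, r ≠ b → r ≠ d → dg F r = 0 := by
    intro F hG hev hA r hr hrb hrd
    rcases hev r with h | h
    · exact h
    · exfalso
      refine (hin r hr hrb hrd).2 ((cov_iff G _).2 ⟨F, hG, hev, ?_⟩)
      rintro v (rfl | hv)
      · exact h
      · exact hA v hv
  have hr1 := hnotcov F1 h1G h1ev (fun v hv => h1A v (Set.mem_insert_of_mem _ hv))
  have hr2 := hnotcov F2 h2G h2ev (fun v hv => h2A v (Set.mem_insert_of_mem _ hv))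
  obtain ⟨F', hsub, hev, hA, hcase⟩ := exch F1 F2 A.toFinset b d hbd (by simpa using hbA)
    (by simpa using hdA) (by
      intro e he
      rcases Finset.mem_union.1 he with he | he
      · exact SimpleGraph.not_isDiag_of_mem_edgeSet _ (h1G e he)
      · exact SimpleGraph.not_isDiag_of_mem_edgeSet _ (h2G e he)) h1ev
    (by intro v hv; exact h1A v (Set.mem_insert_of_mem _ (by simpa using hv)))
    (h1A b (Set.mem_insert _ _)) h1d h2ev
    (by intro v hv; exact h2A v (Set.mem_insert_of_mem _ (by simpa using hv))) h2b
    (h2A d (Set.mem_insert _ _))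
  have hF'G : ∀ e ∈ F', e ∈ G.edgeSet := by
    intro e he
    rcases Finset.mem_union.1 (hsub he) with he | he
    · exact h1G e he
    · exact h2G e he
  rcases hcase with ⟨h1, h2⟩ | ⟨h1, h2⟩
  · refine (cov_iff G _).2 ⟨F', hF'G, ?_, ?_⟩
    · intro v
      by_cases hvb : v = b
      · subst hvb; exact Or.inr h1
      by_cases hvd : v = d
      · subst hvd; exact Or.inr h2
      exact hev v hvb hvd
    · rintro v (rfl | rfl | hv)
      · exact h1
      · exact h2
      · exact hA v (by simpa using hv)
  · obtain ⟨F'', hG'', hev'', hb'', hd'', hmono⟩ := addpath p hp hbd F' hF'G (by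
        intro h
        rcases Finset.mem_union.1 (hsub h) with h | h
        · have := dg_pos h (v := d) (by simp)
          omega
        · have := dg_pos h (v := b) (by simp)
          omega) (by
        intro r hr hrb hrd
        by_contra hne
        have hpos : 0 < dg F' r := Nat.pos_of_ne_zero hne
        obtain ⟨e, he⟩ := Finset.card_pos.1 hpos
        rw [Finset.mem_filter] at he
        rcases Finset.mem_union.1 (hsub he.1) with h | h
        · have := dg_pos h he.2
          have := hr1 r hr hrb hrd
          omega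
        · have := dg_pos h he.2
          have := hr2 r hr hrb hrd
          omega) h1 h2 hev
    refine (cov_iff G _).2 ⟨F'', hG'', hev'', ?_⟩
    rintro v (rfl | rfl | hv)
    · exact hb''
    · exact hd''
    · exact hmono v (hA v (by simpa using hv))

end H77X
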